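import Mathlib
import Pool.Agent.Helper33.CV.Perm

/-!
MP_8ee768_co, project TH-Y': isomorphisms between pair links by canonical frames.

A pair link is a family `D` of triples on the points `0, .., 10`. `third D u v` is the third point
of the triple through `u, v` if there is exactly one. A labelling is built by a fixed schedule:
an item `(j, j)` chooses a new point if fewer than `j + 1` points are labelled, an item `(i, j)`
looks at the third point of the points with labels `i, j` and labels it if it is new. The trace of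
a run is the list of the observed symbols; an isomorphism carries runs to runs with the same trace.
-/

set_option autoImplicit false

namespace Pool.Agent.Helper57.TY

open Finset
open Pool.Agent.Helper89.CV (OddCover ofMask)
open Pool.Agent.Helper97.CV
open Pool.Agent.Helper79.CV
open Pool.Agent.Helper33.CV (Keeps)

/-- `w` completes `u, v` to a triple of `D` -/
def Cpl (D : Finset (Finset (Fin 13))) (u v w : Fin 13) : Prop :=
  u ≠ v ∧ w ≠ u ∧ w ≠ v ∧ ({u, v, w} : Finset (Fin 13)) ∈ D

open Classical in
/-- the third point of the only triple through `u, v` -/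
noncomputable def third (D : Finset (Finset (Fin 13))) (u v : Fin 13) : Option (Fin 13) :=
  if h : ∃ w, Cpl D u v w ∧ ∀ w', Cpl D u v w' → w' = w then some h.choose else none

theorem third_eq_some {D : Finset (Finset (Fin 13))} {u v w : Fin 13} :
    third D u v = some w ↔ Cpl D u v w ∧ ∀ w', Cpl D u v w' → w' = w := by
  unfold third
  constructor
  · intro h
    split_ifs at h with h1
    rw [Option.some.injEq] at h
    rw [← h]
    exact h1.choose_spec
  · intro h
    have h1 : ∃ w, Cpl D u v w ∧ ∀ w', Cpl D u v w' → w' = w := ⟨w, h⟩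
    rw [dif_pos h1]
    rw [h.2 _ h1.choose_spec.1]

theorem cpl_mapF {D : Finset (Finset (Fin 13))} (σ : Equiv.Perm (Fin 13)) {u v w : Fin 13} :
    Cpl (mapF σ D) (σ u) (σ v) (σ w) ↔ Cpl D u v w := by
  unfold Cpl
  have e : ({σ u, σ v, σ w} : Finset (Fin 13)) = mapS σ {u, v, w} := by
    rw [mapS_insert, mapS_insert]
    congr 2
  rw [e, mem_mapF, σ.injective.ne_iff, σ.injective.ne_iff, σ.injective.ne_iff]

theorem third_mapF (D : Finset (Finset (Fin 13))) (σ : Equiv.Perm (Fin 13)) (u v : Fin 13) :
    third (mapF σ D) (σ u) (σ v) = (third D u v).map σ := by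
  have key : ∀ w, third (mapF σ D) (σ u) (σ v) = some (σ w) ↔ third D u v = some w := by
    intro w
    rw [third_eq_some, third_eq_some, cpl_mapF]
    refine and_congr_right fun _ => ?_
    constructor
    · intro h w' hw'
      exact σ.injective (h _ ((cpl_mapF σ).2 hw'))
    · intro h w' hw'
      have h1 := h (σ.symm w') (by
        rw [← cpl_mapF σ, Equiv.apply_symm_apply]
        exact hw')
      rw [← h1, Equiv.apply_symm_apply]
  rcases h : third D u v with _ | w
  · rcases h' : third (mapF σ D) (σ u) (σ v) with _ | w'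
    · rfl
    · have h1 := key (σ.symm w')
      rw [Equiv.apply_symm_apply, h', h] at h1
      exact absurd (h1.1 rfl) (by simp)
  · rw [(key w).2 h]
    rfl

/-- the third point of two labelled points -/
noncomputable def nxt (D : Finset (Finset (Fin 13))) (l : List (Fin 13)) (i j : ℕ) :
    Option (Fin 13) :=
  (l[i]?).bind fun u => (l[j]?).bind fun v => third D u v

theorem nxt_map (D : Finset (Finset (Fin 13))) (σ : Equiv.Perm (Fin 13)) (l : List (Fin 13))
    (i j : ℕ) : nxt (mapF σ D) (l.map σ) i j = (nxt D l i j).map σ := by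
  unfold nxt
  rw [List.getElem?_map, List.getElem?_map]
  rcases l[i]? with _ | u
  · rfl
  · rcases l[j]? with _ | v
    · rfl
    · exact third_mapF D σ u v

/-- the set of the points which form with `x` a pair without a third point -/
noncomputable def lone (D : Finset (Finset (Fin 13))) (x : Fin 13) : Finset (Fin 13) :=
  univ.filter fun u => u.val < 11 ∧ third D x u = none

/-- the colour of a point -/
noncomputable def col (D : Finset (Finset (Fin 13))) (x : Fin 13) : ℕ := 15 - (lone D x).card

theorem lone_mapF (D : Finset (Finset (Fin 13))) {σ : Equiv.Perm (Fin 13)} (hσ : Keeps 11 σ)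
    (x : Fin 13) : lone (mapF σ D) (σ x) = (lone D x).image σ := by
  ext u
  rw [mem_image]
  unfold lone
  constructor
  · intro h
    rw [mem_filter] at h
    refine ⟨σ.symm u, ?_, Equiv.apply_symm_apply _ _⟩
    rw [mem_filter]
    refine ⟨mem_univ _, hσ.symm _ h.2.1, ?_⟩
    have h1 := third_mapF D σ x (σ.symm u)
    rw [Equiv.apply_symm_apply, h.2.2] at h1
    exact (Option.map_eq_none_iff.1 h1.symm)
  · rintro ⟨v, hv, rfl⟩
    rw [mem_filter] at hv ⊢
    refine ⟨mem_univ _, hσ _ hv.2.1, ?_⟩
    rw [third_mapF, hv.2.2]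
    rfl

theorem col_mapF (D : Finset (Finset (Fin 13))) {σ : Equiv.Perm (Fin 13)} (hσ : Keeps 11 σ)
    (x : Fin 13) : col (mapF σ D) (σ x) = col D x := by
  unfold col
  rw [lone_mapF D hσ, card_image_of_injective _ σ.injective]

/-- the runs of a schedule from a list of labelled points: trace and final list -/
def Run (D : Finset (Finset (Fin 13))) :
    List (ℕ × ℕ) → List (Fin 13) → List ℕ → List (Fin 13) → Prop
  | [], l, tr, l' => tr = [] ∧ l' = l
  | (i, j) :: s, l, tr, l' => ∃ k tr', tr = k :: tr' ∧
      ((i = j ∧ j < l.length ∧ k = 0 ∧ Run D s l tr' l') ∨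
       (i = j ∧ ¬ j < l.length ∧ ∃ x : Fin 13, x.val < 11 ∧ x ∉ l ∧ k = col D x ∧
          Run D s (l ++ [x]) tr' l') ∨
       (i ≠ j ∧ nxt D l i j = none ∧ k = 15 ∧ Run D s l tr' l') ∨
       (i ≠ j ∧ ∃ w, nxt D l i j = some w ∧ w ∈ l ∧ k = l.idxOf w + 1 ∧ Run D s l tr' l') ∨
       (i ≠ j ∧ ∃ w, nxt D l i j = some w ∧ w ∉ l ∧ k = 0 ∧ Run D s (l ++ [w]) tr' l'))

theorem idxOf_map_perm (σ : Equiv.Perm (Fin 13)) (l : List (Fin 13)) (w : Fin 13) :
    (l.map σ).idxOf (σ w) = l.idxOf w := by
  induction l with
  | nil => rfl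
  | cons a l ih =>
    rw [List.map_cons, List.idxOf_cons, List.idxOf_cons, ih]
    have h : (σ a == σ w) = (a == w) := by
      rw [Bool.eq_iff_iff, beq_iff_eq, beq_iff_eq, σ.injective.eq_iff]
    rw [h]

/-- an isomorphism carries runs to runs with the same trace -/
theorem Run.map {D : Finset (Finset (Fin 13))} {σ : Equiv.Perm (Fin 13)} (hσ : Keeps 11 σ)
    {s : List (ℕ × ℕ)} {l : List (Fin 13)} {tr : List ℕ} {l' : List (Fin 13)}
    (h : Run D s l tr l') : Run (mapF σ D) s (l.map σ) tr (l'.map σ) := by
  induction s generalizing l tr with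
  | nil =>
    obtain ⟨h1, h2⟩ := h
    exact ⟨h1, by rw [h2]⟩
  | cons ij s ih =>
    obtain ⟨i, j⟩ := ij
    obtain ⟨k, tr', h1, h⟩ := h
    refine ⟨k, tr', h1, ?_⟩
    rw [List.length_map, nxt_map]
    rcases h with h | h | h | h | h
    · exact Or.inl ⟨h.1, h.2.1, h.2.2.1, ih h.2.2.2⟩
    · obtain ⟨h2, h3, x, h4, h5, h6, h7⟩ := h
      refine Or.inr (Or.inl ⟨h2, h3, σ x, hσ _ h4, ?_, ?_, ?_⟩)
      · intro h8
        rw [List.mem_map] at h8
        obtain ⟨y, hy, hy'⟩ := h8
        rw [σ.injective hy'] at hy
        exact h5 hy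
      · rw [col_mapF D hσ, h6]
      · have h8 := ih h7
        rw [List.map_append] at h8
        exact h8
    · obtain ⟨h2, h3, h4, h5⟩ := h
      exact Or.inr (Or.inr (Or.inl ⟨h2, by rw [h3]; rfl, h4, ih h5⟩))
    · obtain ⟨h2, w, h3, h4, h5, h6⟩ := h
      refine Or.inr (Or.inr (Or.inr (Or.inl ⟨h2, σ w, by rw [h3]; rfl,
        List.mem_map_of_mem h4, ?_, ih h6⟩)))
      rw [idxOf_map_perm, h5]
    · obtain ⟨h2, w, h3, h4, h5, h6⟩ := h
      refine Or.inr (Or.inr (Or.inr (Or.inr ⟨h2, σ w, by rw [h3]; rfl, ?_, h5, ?_⟩)))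
      · intro h8
        rw [List.mem_map] at h8
        obtain ⟨y, hy, hy'⟩ := h8
        rw [σ.injective hy'] at hy
        exact h4 hy
      · have h8 := ih h6
        rw [List.map_append] at h8
        exact h8

/-! ## traces as numbers -/

/-- hexadecimal digit -/
def nib (X i : ℕ) : ℕ := Nat.land (Nat.shiftRight X (Nat.mul 4 i)) 15

/-- the trace is the list of the hexadecimal digits of `R` at the places `s` -/
def Is (R : ℕ) : List ℕ → List ℕ → Prop
  | [], [] => True
  | k :: tr, q :: s => k = nib R q ∧ Is R tr s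
  | _, _ => False

/-- the trace is lexicographically at least the list of the hexadecimal digits of `R` -/
def Ge (R : ℕ) : List ℕ → List ℕ → Prop
  | [], [] => True
  | k :: tr, q :: s => nib R q < k ∨ (k = nib R q ∧ Ge R tr s)
  | _, _ => False

theorem is_of_ge {ta tb s : List ℕ} {Ra Rb : ℕ} (ha : Is Ra ta s)
    (hb : Is Rb tb s) (hab : Ge Rb ta s) (hba : Ge Ra tb s) : ta = tb := by
  induction s generalizing ta tb with
  | nil =>
    cases ta with
    | nil =>
      cases tb with
      | nil => rfl
      | cons k tb => exact hb.elim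
    | cons k ta => exact ha.elim
  | cons q s ih =>
    cases ta with
    | nil => exact ha.elim
    | cons k ta =>
      cases tb with
      | nil => exact hb.elim
      | cons k' tb =>
        obtain ⟨ha1, ha2⟩ := ha
        obtain ⟨hb1, hb2⟩ := hb
        rcases hab with h1 | ⟨h1, h2⟩
        · rcases hba with h3 | ⟨h3, -⟩
          · omega
          · omega
        · rcases hba with h3 | ⟨h3, h4⟩
          · omega
          · rw [ih ha2 hb2 h2 h4]
            congr 1
            omega

theorem is_unique {t s : List ℕ} {Ra Rb : ℕ} (ha : Is Ra t s) (hb : Is Rb t s) :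
    ∀ q ∈ s, nib Ra q = nib Rb q := by
  induction s generalizing t with
  | nil =>
    intro q hq
    exact absurd hq List.not_mem_nil
  | cons q s ih =>
    cases t with
    | nil => exact ha.elim
    | cons k t =>
      obtain ⟨ha1, ha2⟩ := ha
      obtain ⟨hb1, hb2⟩ := hb
      intro q' hq'
      rcases List.mem_cons.1 hq' with rfl | hq'
      · omega
      · exact ih ha2 hb2 q' hq'

end Pool.Agent.Helper57.TY
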