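import Mathlib
import Pool.Agent.Helper57.TY.FrameD

/-!
MP_8ee768_co, project TH-Y': the frame test for blocks of pair link types.
-/

set_option autoImplicit false

namespace Pool.Agent.Helper57.TY

open Finset
open Pool.Agent.Helper97.CV
open Pool.Agent.Helper79.CV

/-- a record: table of third points, table of colours, trace, reference list, automorphisms -/
abbrev Rec : Type := ℕ × ℕ × ℕ × ℕ × List (ℕ × ℕ)

/-- the test of a record -/
def okR (T : ℕ) (x : Rec) : Bool :=
  @Prod.rec ℕ (ℕ × ℕ × ℕ × List (ℕ × ℕ)) (fun _ => Bool) (fun P y =>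
    @Prod.rec ℕ (ℕ × ℕ × List (ℕ × ℕ)) (fun _ => Bool) (fun C z =>
      @Prod.rec ℕ (ℕ × List (ℕ × ℕ)) (fun _ => Bool) (fun R w =>
        @Prod.rec ℕ (List (ℕ × ℕ)) (fun _ => Bool) (fun F A =>
          frc T fun T' => okL T' P C R F A) w) z) y) x

/-- trace of a record -/
def Rec.tr (x : Rec) : ℕ := x.2.2.1

/-- automorphisms of a record -/
def Rec.au (x : Rec) : List (ℕ × ℕ) := x.2.2.2.2

theorem good_of_okR {T : ℕ} {x : Rec} (h : okR T x = true) : Good sched T x.tr x.au := by
  obtain ⟨P, C, R, F, A⟩ := x
  unfold okR at h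
  simp only [frc_eq] at h
  exact good_of_okL h

/-- the test of the types `t, t + 1, ..` -/
def okB (ty : ℕ → ℕ) (xs : List Rec) : ℕ → Bool :=
  @List.rec Rec (fun _ => ℕ → Bool) (fun _ => true)
    (fun x _ ih t => cond (okR (ty t) x) (frc (Nat.succ t) fun t' => ih t') false) xs

theorem okB_sound {ty : ℕ → ℕ} {xs : List Rec} {t : ℕ} (h : okB ty xs t = true) :
    ∀ i, ∀ hi : i < xs.length, Good sched (ty (t + i)) (xs[i]).tr (xs[i]).au := by
  induction xs generalizing t with
  | nil =>
    intro i hi
    exact absurd hi (Nat.not_lt_zero _)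
  | cons x xs ih =>
    have e : okB ty (x :: xs) t = cond (okR (ty t) x) (frc (Nat.succ t) fun t' => okB ty xs t') false := rfl
    rw [e, frc_eq] at h
    cases h1 : okR (ty t) x
    · rw [h1, cond_false] at h
      exact absurd h Bool.false_ne_true
    rw [h1, cond_true] at h
    intro i hi
    cases i with
    | zero => exact good_of_okR h1
    | succ i =>
      have h2 := ih h i (by rw [List.length_cons] at hi; omega)
      rw [show t + (i + 1) = Nat.succ t + i by omega]
      exact h2

end Pool.Agent.Helper57.TY
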