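import Mathlib
import Pool.Agent.Helper57.TY.Frame

/-!
MP_8ee768_co, project TH-Y': the kernel program for canonical frames and its soundness.

Points are stored as `x + 1` in hexadecimal digits (`0` = none). `P` is the table of third points
(digit `16 (u + 1) + (v + 1)`), `C` the table of colours, `L` the labelled points, `Q` the labels
(digit `x + 1`; digit `0` is `15`, the symbol of a missing third point).
-/

set_option autoImplicit false

namespace Pool.Agent.Helper57.TY

open Finset
open Pool.Agent.Helper89.CV (OddCover ofMask)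
open Pool.Agent.Helper97.CV
open Pool.Agent.Helper79.CV
open Pool.Agent.Helper33.CV (Keeps)

/-- change of a digit -/
def upd (X w j : ℕ) : ℕ := Nat.xor X (Nat.shiftLeft w (Nat.mul 4 j))

/-- evaluation of an argument -/
def frc {α : Type} (n : ℕ) (f : ℕ → α) : α := @Nat.rec (fun _ => α) (f 0) (fun m _ => f (Nat.succ m)) n

theorem frc_eq {α : Type} (n : ℕ) (f : ℕ → α) : frc n f = f n := by
  cases n <;> rfl

theorem testBit_nib (X i b : ℕ) : (nib X i).testBit b = (decide (b < 4) && X.testBit (4 * i + b)) := by
  have e : nib X i = (X >>> (4 * i)) &&& (2 ^ 4 - 1) := rfl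
  rw [e, Nat.testBit_and, Nat.testBit_two_pow_sub_one, Nat.testBit_shiftRight, Bool.and_comm]

theorem nib_lt (X i : ℕ) : nib X i < 16 := by
  refine Nat.lt_pow_two_of_testBit (n := 4) _ fun b hb => ?_
  rw [testBit_nib, decide_eq_false (by omega), Bool.false_and]

theorem nib_upd {X w j : ℕ} (hw : w < 16) (i : ℕ) :
    nib (upd X w j) i = if i = j then nib X j ^^^ w else nib X i := by
  have hw4 : ∀ b, 4 ≤ b → w.testBit b = false := fun b hb =>
    Nat.testBit_eq_false_of_lt (lt_of_lt_of_le hw (Nat.pow_le_pow_right (n := 2) (i := 4) (by norm_num) hb))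
  have e : upd X w j = X ^^^ (w <<< (4 * j)) := rfl
  refine Nat.eq_of_testBit_eq fun b => ?_
  rw [testBit_nib, e, Nat.testBit_xor, Nat.testBit_shiftLeft]
  split_ifs with h
  · subst h
    rw [Nat.testBit_xor, testBit_nib]
    by_cases hb : b < 4
    · rw [decide_eq_true hb, Bool.true_and, Bool.true_and, decide_eq_true (by omega : 4 * i + b ≥ 4 * i),
        Bool.true_and]
      congr 2
      omega
    · rw [decide_eq_false hb, Bool.false_and, Bool.false_and, hw4 b (by omega)]
      rfl
  · rw [testBit_nib]
    by_cases hb : b < 4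
    · rw [decide_eq_true hb, Bool.true_and, Bool.true_and]
      by_cases hij : i < j
      · rw [decide_eq_false (by omega), Bool.false_and, Bool.xor_false]
      · rw [hw4 _ (by omega), Bool.and_false, Bool.xor_false]
    · rw [decide_eq_false hb, Bool.false_and, Bool.false_and]

/-- code of an optional point -/
def pc : Option (Fin 13) → ℕ
  | none => 0
  | some x => x.val + 1

theorem pc_injective : Function.Injective pc := by
  intro a b h
  rcases a with _ | a <;> rcases b with _ | b
  · rfl
  · have h' : 0 = b.val + 1 := h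
    omega
  · have h' : a.val + 1 = 0 := h
    omega
  · have : a.val + 1 = b.val + 1 := h
    rw [Fin.ext (by omega : a.val = b.val)]

/-- `P` is the table of third points -/
def SpecP (D : Finset (Finset (Fin 13))) (P : ℕ) : Prop :=
  (∀ o₁ o₂ : Option (Fin 13), (∀ x, o₁ = some x → x.val < 11) → (∀ x, o₂ = some x → x.val < 11) →
    nib P (16 * pc o₁ + pc o₂) = pc (o₁.bind fun u => o₂.bind fun v => third D u v)) ∧
  ∀ u v w, third D u v = some w → w.val < 11

/-- `C` is the table of colours -/
def SpecC (D : Finset (Finset (Fin 13))) (C : ℕ) : Prop :=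
  ∀ x : Fin 13, x.val < 11 → nib C (x.val + 1) = col D x

/-- the state of the program describes the list of labelled points -/
def Inv (l : List (Fin 13)) (L Q n : ℕ) : Prop :=
  n = l.length ∧ l.Nodup ∧ (∀ x ∈ l, x.val < 11) ∧ (∀ i, nib L i = pc (l[i]?)) ∧
    (∀ x : Fin 13, nib Q (x.val + 1) = if x ∈ l then l.idxOf x + 1 else 0) ∧ nib Q 0 = 15

theorem length_le {l : List (Fin 13)} (h1 : l.Nodup) (h2 : ∀ x ∈ l, x.val < 11) :
    l.length ≤ 11 := by
  have h3 : (l.map Fin.val).Nodup := h1.map Fin.val_injective
  have h4 : l.map Fin.val ⊆ List.range 11 := by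
    intro a ha
    rw [List.mem_map] at ha
    obtain ⟨x, hx, rfl⟩ := ha
    rw [List.mem_range]
    exact h2 x hx
  have h5 := (h3.subperm h4).length_le
  rwa [List.length_map, List.length_range] at h5

theorem Inv.le {l : List (Fin 13)} {L Q n : ℕ} (h : Inv l L Q n) : n ≤ 11 := by
  rw [h.1]
  exact length_le h.2.1 h.2.2.1

theorem Inv.init : Inv [] 0 15 0 := by
  refine ⟨rfl, List.nodup_nil, by simp, ?_, ?_, rfl⟩
  · intro i
    rw [List.getElem?_nil]
    unfold nib
    have e : Nat.shiftRight 0 (Nat.mul 4 i) = 0 >>> (4 * i) := rfl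
    rw [e, Nat.zero_shiftRight]
    rfl
  · intro x
    rw [if_neg (by simp)]
    refine Nat.eq_of_testBit_eq fun b => ?_
    rw [testBit_nib, Nat.zero_testBit]
    have h1 : (15 : ℕ).testBit (4 * (x.val + 1) + b) = false :=
      Nat.testBit_eq_false_of_lt (lt_of_lt_of_le (by norm_num : (15 : ℕ) < 2 ^ 4)
        (Nat.pow_le_pow_right (by norm_num) (by omega)))
    rw [h1, Bool.and_false]

/-- a new labelled point -/
theorem Inv.add {l : List (Fin 13)} {L Q n : ℕ} (h : Inv l L Q n) {x : Fin 13} (hx : x.val < 11)
    (hxl : x ∉ l) : Inv (l ++ [x]) (upd L (x.val + 1) n) (upd Q (n + 1) (x.val + 1)) (n + 1) := by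
  obtain ⟨h1, h2, h3, h4, h5, h6⟩ := h
  have hnd : (l ++ [x]).Nodup := by
    rw [List.nodup_append]
    refine ⟨h2, List.nodup_singleton x, ?_⟩
    intro a ha b hb hab
    rw [List.mem_singleton] at hb
    rw [hab, hb] at ha
    exact hxl ha
  have hlt : ∀ y ∈ l ++ [x], y.val < 11 := by
    intro y hy
    rw [List.mem_append, List.mem_singleton] at hy
    rcases hy with hy | rfl
    · exact h3 y hy
    · exact hx
  have hlen : n + 1 ≤ 11 := by
    have h7 := length_le hnd hlt
    rw [List.length_append, List.length_singleton, ← h1] at h7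
    exact h7
  refine ⟨by rw [List.length_append, List.length_singleton, h1], hnd, hlt, ?_, ?_, ?_⟩
  · intro i
    rw [nib_upd (by omega)]
    split_ifs with hi
    · rw [hi, h4, h1, List.getElem?_eq_none (le_refl _), List.getElem?_append_right (le_refl _),
        Nat.sub_self]
      have e : ([x] : List (Fin 13))[0]? = some x := rfl
      rw [e]
      have e2 : pc none = 0 := rfl
      rw [e2, Nat.zero_xor]
      rfl
    · rw [h4]
      rcases Nat.lt_or_ge i l.length with h7 | h7
      · rw [List.getElem?_append_left h7]
      · rw [List.getElem?_eq_none h7, List.getElem?_eq_none]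
        rw [List.length_append, List.length_singleton]
        omega
  · intro y
    rw [nib_upd (by omega)]
    split_ifs with hy hyl hyl
    · have hyx : y = x := Fin.ext (by omega)
      subst hyx
      rw [h5, if_neg hxl, List.idxOf_append_of_notMem hxl, Nat.zero_xor]
      have e : ([y] : List (Fin 13)).idxOf y = 0 := List.idxOf_cons_self
      rw [e, h1]
    · exfalso
      have hyx : y = x := Fin.ext (by omega)
      subst hyx
      exact hyl (List.mem_append_right _ (List.mem_singleton_self _))
    · rw [h5]
      have hyx : y ≠ x := fun h7 => hy (by rw [h7])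
      have h8 : y ∈ l := by
        rw [List.mem_append, List.mem_singleton] at hyl
        exact hyl.resolve_right hyx
      rw [if_pos h8, List.idxOf_append_of_mem h8]
    · rw [h5, if_neg]
      exact fun h7 => hyl (List.mem_append_left _ h7)
  · rw [nib_upd (by omega), if_neg (by omega)]
    exact h6

/-- the symbol seen by the program -/
theorem Inv.sym {l : List (Fin 13)} {L Q n : ℕ} (h : Inv l L Q n) {D : Finset (Finset (Fin 13))}
    {P : ℕ} (hP : SpecP D P) (i j : ℕ) :
    nib P (16 * nib L i + nib L j) = pc (nxt D l i j) ∧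
      nib Q (nib P (16 * nib L i + nib L j)) =
        match nxt D l i j with
        | none => 15
        | some w => if w ∈ l then l.idxOf w + 1 else 0 := by
  obtain ⟨h1, h2, h3, h4, h5, h6⟩ := h
  have hw : nib P (16 * nib L i + nib L j) = pc (nxt D l i j) := by
    rw [h4, h4]
    refine hP.1 _ _ ?_ ?_
    · intro x hx
      exact h3 x (List.mem_of_getElem? hx)
    · intro x hx
      exact h3 x (List.mem_of_getElem? hx)
  refine ⟨hw, ?_⟩
  rw [hw]
  rcases nxt D l i j with _ | w
  · exact h6
  · exact h5 w

/-- the points as digits -/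
def pts : List ℕ := [nat_lit 1, nat_lit 2, nat_lit 3, nat_lit 4, nat_lit 5, nat_lit 6, nat_lit 7,
  nat_lit 8, nat_lit 9, nat_lit 10, nat_lit 11]

theorem mem_pts {a : ℕ} : a ∈ pts ↔ 1 ≤ a ∧ a ≤ 11 := by
  unfold pts
  simp only [List.mem_cons, List.not_mem_nil, or_false]
  omega

/-- `all` by the recursor -/
def allR (l : List ℕ) (f : ℕ → Bool) : Bool :=
  @List.rec ℕ (fun _ => Bool) true (fun x _ r => cond (f x) r false) l

theorem allR_eq (l : List ℕ) (f : ℕ → Bool) : allR l f = true ↔ ∀ x ∈ l, f x = true := by
  induction l with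
  | nil =>
    unfold allR
    simp
  | cons a l ih =>
    have e : allR (a :: l) f = cond (f a) (allR l f) false := rfl
    rw [e]
    cases h : f a
    · rw [cond_false]
      constructor
      · intro h1
        exact absurd h1 Bool.false_ne_true
      · intro h1
        rw [h1 a (List.mem_cons_self)] at h
        exact absurd h.symm Bool.false_ne_true
    · rw [cond_true, ih]
      constructor
      · intro h1 x hx
        rcases List.mem_cons.1 hx with rfl | hx
        · exact h
        · exact h1 x hx
      · intro h1 x hx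
        exact h1 x (List.mem_cons_of_mem _ hx)

/-- membership of a number in a list of pairs (second component) -/
def memR (A : List (ℕ × ℕ)) (L : ℕ) : Bool :=
  @List.rec (ℕ × ℕ) (fun _ => Bool) false (fun p _ r => cond (Nat.beq p.2 L) true r) A

theorem memR_eq {A : List (ℕ × ℕ)} {L : ℕ} (h : memR A L = true) : ∃ p ∈ A, p.2 = L := by
  induction A with
  | nil => exact absurd h Bool.false_ne_true
  | cons a A ih =>
    have e : memR (a :: A) L = cond (Nat.beq a.2 L) true (memR A L) := rfl
    rw [e] at h
    cases h1 : Nat.beq a.2 L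
    · rw [h1, cond_false] at h
      obtain ⟨p, hp, hp2⟩ := ih h
      exact ⟨p, List.mem_cons_of_mem _ hp, hp2⟩
    · exact ⟨a, List.mem_cons_self, Nat.eq_of_beq_eq_true h1⟩

theorem land15 (R : ℕ) : Nat.land R 15 = R % 16 := by
  have e : Nat.land R 15 = R &&& (2 ^ 4 - 1) := rfl
  rw [e, Nat.and_two_pow_sub_one_eq_mod]

/-- the pairs of a schedule with places -/
def prs (s : List (ℕ × ℕ × ℕ)) : List (ℕ × ℕ) := s.map fun e => (e.1, e.2.1)

/-- the places of a schedule -/
def plc (s : List (ℕ × ℕ × ℕ)) : List ℕ := s.map fun e => e.2.2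

/-- the test: no run has a smaller trace than `R`, runs with trace `R` end in the list `A` -/
def chk (P C : ℕ) (A : List (ℕ × ℕ)) (R : ℕ) (s : List (ℕ × ℕ × ℕ)) : ℕ → ℕ → ℕ → Bool :=
  @List.rec (ℕ × ℕ × ℕ) (fun _ => ℕ → ℕ → ℕ → Bool)
    (fun L _ _ => memR A L)
    (fun e _ ih L Q n =>
      @Prod.rec ℕ (ℕ × ℕ) (fun _ => Bool) (fun i e' => @Prod.rec ℕ ℕ (fun _ => Bool) (fun j q =>
        frc (nib R q) fun r =>
        cond (Nat.beq i j)
          (cond (Nat.blt j n)
            (cond (Nat.beq r 0) (ih L Q n) false)
            (allR pts fun x =>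
              cond (Nat.beq (nib Q x) 0)
                (cond (Nat.beq (nib C x) r)
                  (frc (upd L x n) fun L' => frc (upd Q (Nat.succ n) x) fun Q' =>
                    frc (Nat.succ n) fun n' => ih L' Q' n')
                  (Nat.blt r (nib C x)))
                true))
          (frc (nib P (Nat.add (Nat.mul 16 (nib L i)) (nib L j))) fun w => frc (nib Q w) fun k =>
            cond (Nat.beq k r)
              (cond (Nat.beq k 0)
                (frc (upd L w n) fun L' => frc (upd Q (Nat.succ n) w) fun Q' =>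
                  frc (Nat.succ n) fun n' => ih L' Q' n')
                (ih L Q n))
              (Nat.blt r k))) e') e)
    s

theorem chk_cons (P C : ℕ) (A : List (ℕ × ℕ)) (R i j q : ℕ) (s : List (ℕ × ℕ × ℕ)) (L Q n : ℕ) :
    chk P C A R ((i, j, q) :: s) L Q n =
      cond (Nat.beq i j)
          (cond (Nat.blt j n)
            (cond (Nat.beq (nib R q) 0) (chk P C A R s L Q n) false)
            (allR pts fun x =>
              cond (Nat.beq (nib Q x) 0)
                (cond (Nat.beq (nib C x) (nib R q))
                  (chk P C A R s (upd L x n) (upd Q (n + 1) x) (n + 1))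
                  (Nat.blt (nib R q) (nib C x)))
                true))
          (cond (Nat.beq (nib Q (nib P (16 * nib L i + nib L j))) (nib R q))
              (cond (Nat.beq (nib Q (nib P (16 * nib L i + nib L j))) 0)
                (chk P C A R s (upd L (nib P (16 * nib L i + nib L j)) n)
                  (upd Q (n + 1) (nib P (16 * nib L i + nib L j))) (n + 1))
                (chk P C A R s L Q n))
              (Nat.blt (nib R q) (nib Q (nib P (16 * nib L i + nib L j))))) := by
  have e : chk P C A R ((i, j, q) :: s) L Q n =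
      frc (nib R q) fun r =>
        cond (Nat.beq i j)
          (cond (Nat.blt j n)
            (cond (Nat.beq r 0) (chk P C A R s L Q n) false)
            (allR pts fun x =>
              cond (Nat.beq (nib Q x) 0)
                (cond (Nat.beq (nib C x) r)
                  (frc (upd L x n) fun L' => frc (upd Q (Nat.succ n) x) fun Q' =>
                    frc (Nat.succ n) fun n' => chk P C A R s L' Q' n')
                  (Nat.blt r (nib C x)))
                true))
          (frc (nib P (Nat.add (Nat.mul 16 (nib L i)) (nib L j))) fun w => frc (nib Q w) fun k =>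
            cond (Nat.beq k r)
              (cond (Nat.beq k 0)
                (frc (upd L w n) fun L' => frc (upd Q (Nat.succ n) w) fun Q' =>
                  frc (Nat.succ n) fun n' => chk P C A R s L' Q' n')
                (chk P C A R s L Q n))
              (Nat.blt r k)) := rfl
  rw [e]
  simp only [frc_eq]
  rfl

/-- soundness of the test -/
theorem chk_sound {D : Finset (Finset (Fin 13))} {P C R : ℕ} {A : List (ℕ × ℕ)} (hP : SpecP D P)
    (hC : SpecC D C) {s : List (ℕ × ℕ × ℕ)} {l : List (Fin 13)} {L Q n : ℕ} (hI : Inv l L Q n)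
    (h : chk P C A R s L Q n = true) {tr : List ℕ} {l' : List (Fin 13)}
    (hr : Run D (prs s) l tr l') :
    Ge R tr (plc s) ∧ (Is R tr (plc s) → ∃ p ∈ A, ∀ i, nib p.2 i = pc (l'[i]?)) := by
  induction s generalizing l L Q n tr with
  | nil =>
    obtain ⟨h1, h2⟩ := hr
    subst h1 h2
    refine ⟨trivial, fun _ => ?_⟩
    obtain ⟨p, hp, hp2⟩ := memR_eq (show memR A L = true from h)
    refine ⟨p, hp, ?_⟩
    rw [hp2]
    exact hI.2.2.2.1
  | cons ij s ih =>
    obtain ⟨i, j, q⟩ := ij
    have hr' : Run D ((i, j) :: prs s) l tr l' := hr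
    clear hr
    obtain ⟨k, tr', h1, hr⟩ := hr'
    subst h1
    rw [chk_cons] at h
    have hn := hI.1
    have epl : plc ((i, j, q) :: s) = q :: plc s := rfl
    rw [epl]
    -- the continuation
    have fin : (Ge R tr' (plc s) ∧ (Is R tr' (plc s) → ∃ p ∈ A, ∀ i, nib p.2 i = pc (l'[i]?))) →
        k = nib R q → Ge R (k :: tr') (q :: plc s) ∧
          (Is R (k :: tr') (q :: plc s) → ∃ p ∈ A, ∀ i, nib p.2 i = pc (l'[i]?)) := by
      rintro ⟨h2, h3⟩ h4
      exact ⟨Or.inr ⟨h4, h2⟩, fun h5 => h3 h5.2⟩
    have big : nib R q < k →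
        Ge R (k :: tr') (q :: plc s) ∧
          (Is R (k :: tr') (q :: plc s) → ∃ p ∈ A, ∀ i, nib p.2 i = pc (l'[i]?)) := by
      intro h2
      refine ⟨Or.inl h2, fun h5 => ?_⟩
      have := h5.1
      omega
    rcases hr with hr | hr | hr | hr | hr
    · obtain ⟨hij, hjn, hk, hr⟩ := hr
      have e1 : Nat.beq i j = true := by rw [hij]; exact Nat.beq_refl j
      have e2 : Nat.blt j n = true := by rw [Nat.blt_eq, hn]; exact hjn
      rw [e1, e2, cond_true, cond_true] at h
      cases e3 : Nat.beq (nib R q) 0
      · rw [e3, cond_false] at h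
        exact absurd h Bool.false_ne_true
      · rw [e3, cond_true] at h
        have h3 := Nat.eq_of_beq_eq_true e3
        exact fin (ih hI h hr) (by omega)
    · obtain ⟨hij, hjn, x, hx, hxl, hk, hr⟩ := hr
      have e1 : Nat.beq i j = true := by rw [hij]; exact Nat.beq_refl j
      have e2 : Nat.blt j n = false := by
        rw [← Bool.not_eq_true, Nat.blt_eq, hn]
        exact hjn
      rw [e1, e2, cond_true, cond_false, allR_eq] at h
      have h2 := h (x.val + 1) (mem_pts.2 ⟨by omega, by omega⟩)
      have e3 : nib Q (x.val + 1) = 0 := by rw [hI.2.2.2.2.1, if_neg hxl]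
      rw [e3, show Nat.beq 0 0 = true from rfl, cond_true, hC x hx] at h2
      cases e4 : Nat.beq (col D x) (nib R q)
      · rw [e4, cond_false, Nat.blt_eq] at h2
        exact big (by rw [hk]; exact h2)
      · rw [e4, cond_true] at h2
        have h3 := Nat.eq_of_beq_eq_true e4
        exact fin (ih (hI.add hx hxl) h2 hr) (by omega)
    · obtain ⟨hij, hnx, hk, hr⟩ := hr
      have e1 : Nat.beq i j = false := by
        rw [← Bool.not_eq_true]
        exact fun h5 => hij (Nat.eq_of_beq_eq_true h5)
      obtain ⟨s1, s2⟩ := hI.sym hP i j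
      rw [hnx] at s2
      simp only at s2
      rw [e1, cond_false, s2] at h
      cases e4 : Nat.beq 15 (nib R q)
      · rw [e4, cond_false, Nat.blt_eq] at h
        exact big (by rw [hk]; exact h)
      · rw [e4, cond_true, show Nat.beq 15 0 = false from rfl, cond_false] at h
        have h3 := Nat.eq_of_beq_eq_true e4
        exact fin (ih hI h hr) (by omega)
    · obtain ⟨hij, w, hnx, hwl, hk, hr⟩ := hr
      have e1 : Nat.beq i j = false := by
        rw [← Bool.not_eq_true]
        exact fun h5 => hij (Nat.eq_of_beq_eq_true h5)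
      obtain ⟨s1, s2⟩ := hI.sym hP i j
      rw [hnx] at s2
      simp only at s2
      rw [if_pos hwl] at s2
      rw [e1, cond_false, s2] at h
      cases e4 : Nat.beq (l.idxOf w + 1) (nib R q)
      · rw [e4, cond_false, Nat.blt_eq] at h
        exact big (by rw [hk]; exact h)
      · rw [e4, cond_true, show Nat.beq (l.idxOf w + 1) 0 = false from rfl, cond_false] at h
        have h3 := Nat.eq_of_beq_eq_true e4
        exact fin (ih hI h hr) (by omega)
    · obtain ⟨hij, w, hnx, hwl, hk, hr⟩ := hr
      have e1 : Nat.beq i j = false := by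
        rw [← Bool.not_eq_true]
        exact fun h5 => hij (Nat.eq_of_beq_eq_true h5)
      obtain ⟨s1, s2⟩ := hI.sym hP i j
      rw [hnx] at s2 s1
      simp only at s2
      rw [if_neg hwl] at s2
      have hw : w.val < 11 := by
        unfold nxt at hnx
        rw [Option.bind_eq_some_iff] at hnx
        obtain ⟨u, -, hnx⟩ := hnx
        rw [Option.bind_eq_some_iff] at hnx
        obtain ⟨v, -, hnx⟩ := hnx
        exact hP.2 u v w hnx
      rw [e1, cond_false, s2] at h
      cases e4 : Nat.beq 0 (nib R q)
      · rw [e4, cond_false, Nat.blt_eq] at h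
        exact big (by rw [hk]; exact h)
      · rw [e4, cond_true, show Nat.beq 0 0 = true from rfl, cond_true] at h
        have h3 := Nat.eq_of_beq_eq_true e4
        have e5 : nib P (16 * nib L i + nib L j) = w.val + 1 := s1
        rw [e5] at h
        exact fin (ih (hI.add hw hwl) h hr) (by omega)

/-- the reference run: chosen points from `F`, trace `R`, final list `F` -/
def ref (P C F R : ℕ) (s : List (ℕ × ℕ × ℕ)) : ℕ → ℕ → ℕ → Bool :=
  @List.rec (ℕ × ℕ × ℕ) (fun _ => ℕ → ℕ → ℕ → Bool)
    (fun L _ _ => Nat.beq L F)
    (fun e _ ih L Q n =>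
      @Prod.rec ℕ (ℕ × ℕ) (fun _ => Bool) (fun i e' => @Prod.rec ℕ ℕ (fun _ => Bool) (fun j q =>
        frc (nib R q) fun r =>
        cond (Nat.beq i j)
          (cond (Nat.blt j n)
            (cond (Nat.beq r 0) (ih L Q n) false)
            (frc (nib F n) fun x =>
              cond (cond (Nat.blt 0 x) (cond (Nat.blt x 12) (cond (Nat.beq (nib Q x) 0)
                  (Nat.beq (nib C x) r) false) false) false)
                (frc (upd L x n) fun L' => frc (upd Q (Nat.succ n) x) fun Q' =>
                    frc (Nat.succ n) fun n' => ih L' Q' n')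
                false))
          (frc (nib P (Nat.add (Nat.mul 16 (nib L i)) (nib L j))) fun w => frc (nib Q w) fun k =>
            cond (Nat.beq k r)
              (cond (Nat.beq k 0)
                (frc (upd L w n) fun L' => frc (upd Q (Nat.succ n) w) fun Q' =>
                  frc (Nat.succ n) fun n' => ih L' Q' n')
                (ih L Q n))
              false)) e') e)
    s

theorem ref_cons (P C F R : ℕ) (i j q : ℕ) (s : List (ℕ × ℕ × ℕ)) (L Q n : ℕ) :
    ref P C F R ((i, j, q) :: s) L Q n =
      cond (Nat.beq i j)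
          (cond (Nat.blt j n)
            (cond (Nat.beq (nib R q) 0) (ref P C F R s L Q n) false)
            (cond (cond (Nat.blt 0 (nib F n)) (cond (Nat.blt (nib F n) 12)
                (cond (Nat.beq (nib Q (nib F n)) 0)
                  (Nat.beq (nib C (nib F n)) (nib R q)) false) false) false)
                (ref P C F R s (upd L (nib F n) n) (upd Q (n + 1) (nib F n)) (n + 1))
                false))
          (cond (Nat.beq (nib Q (nib P (16 * nib L i + nib L j))) (nib R q))
              (cond (Nat.beq (nib Q (nib P (16 * nib L i + nib L j))) 0)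
                (ref P C F R s (upd L (nib P (16 * nib L i + nib L j)) n)
                  (upd Q (n + 1) (nib P (16 * nib L i + nib L j))) (n + 1))
                (ref P C F R s L Q n))
              false) := by
  have e : ref P C F R ((i, j, q) :: s) L Q n =
      frc (nib R q) fun r =>
        cond (Nat.beq i j)
          (cond (Nat.blt j n)
            (cond (Nat.beq r 0) (ref P C F R s L Q n) false)
            (frc (nib F n) fun x =>
              cond (cond (Nat.blt 0 x) (cond (Nat.blt x 12) (cond (Nat.beq (nib Q x) 0)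
                  (Nat.beq (nib C x) r) false) false) false)
                (frc (upd L x n) fun L' => frc (upd Q (Nat.succ n) x) fun Q' =>
                    frc (Nat.succ n) fun n' => ref P C F R s L' Q' n')
                false))
          (frc (nib P (Nat.add (Nat.mul 16 (nib L i)) (nib L j))) fun w => frc (nib Q w) fun k =>
            cond (Nat.beq k r)
              (cond (Nat.beq k 0)
                (frc (upd L w n) fun L' => frc (upd Q (Nat.succ n) w) fun Q' =>
                  frc (Nat.succ n) fun n' => ref P C F R s L' Q' n')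
                (ref P C F R s L Q n))
              false) := rfl
  rw [e]
  simp only [frc_eq]
  rfl

theorem ref_sound {D : Finset (Finset (Fin 13))} {P C F R : ℕ} (hP : SpecP D P)
    (hC : SpecC D C) {s : List (ℕ × ℕ × ℕ)} {l : List (Fin 13)} {L Q n : ℕ} (hI : Inv l L Q n)
    (h : ref P C F R s L Q n = true) :
    ∃ tr l', Run D (prs s) l tr l' ∧ Is R tr (plc s) ∧ (∀ i, nib F i = pc (l'[i]?)) ∧
      l'.Nodup ∧ ∀ x ∈ l', x.val < 11 := by
  induction s generalizing l L Q n with
  | nil =>
    have h2 := Nat.eq_of_beq_eq_true (show Nat.beq L F = true from h)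
    refine ⟨[], l, ⟨rfl, rfl⟩, trivial, ?_, hI.2.1, hI.2.2.1⟩
    rw [← h2]
    exact hI.2.2.2.1
  | cons ij s ih =>
    obtain ⟨i, j, q⟩ := ij
    rw [ref_cons] at h
    have hn := hI.1
    cases e1 : Nat.beq i j
    · rw [e1, cond_false] at h
      have hij : i ≠ j := by
        rintro rfl
        rw [Nat.beq_refl] at e1
        exact Bool.false_ne_true e1.symm
      obtain ⟨s1, s2⟩ := hI.sym hP i j
      cases e2 : Nat.beq (nib Q (nib P (16 * nib L i + nib L j))) (nib R q)
      · rw [e2, cond_false] at h
        exact absurd h Bool.false_ne_true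
      · rw [e2, cond_true] at h
        have h2 := Nat.eq_of_beq_eq_true e2
        rcases hnx : nxt D l i j with _ | w
        · rw [hnx] at s2
          simp only at s2
          rw [s2, show Nat.beq 15 0 = false from rfl, cond_false] at h
          obtain ⟨tr, l', h3, h4, h5⟩ := ih hI h
          refine ⟨15 :: tr, l', ⟨15, tr, rfl, Or.inr (Or.inr (Or.inl ⟨hij, hnx, rfl, h3⟩))⟩,
            ⟨by rw [← h2, s2], h4⟩, h5⟩
        · rw [hnx] at s2 s1
          simp only at s2
          by_cases hwl : w ∈ l
          · rw [if_pos hwl] at s2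
            rw [s2, show Nat.beq (l.idxOf w + 1) 0 = false from rfl, cond_false] at h
            obtain ⟨tr, l', h3, h4, h5⟩ := ih hI h
            refine ⟨(l.idxOf w + 1) :: tr, l', ⟨_, tr, rfl, Or.inr (Or.inr (Or.inr (Or.inl
              ⟨hij, w, hnx, hwl, rfl, h3⟩)))⟩, ⟨by rw [← h2, s2], h4⟩, h5⟩
          · rw [if_neg hwl] at s2
            have hw : w.val < 11 := by
              unfold nxt at hnx
              rw [Option.bind_eq_some_iff] at hnx
              obtain ⟨u, -, hnx⟩ := hnx
              rw [Option.bind_eq_some_iff] at hnx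
              obtain ⟨v, -, hnx⟩ := hnx
              exact hP.2 u v w hnx
            have e5 : nib P (16 * nib L i + nib L j) = w.val + 1 := s1
            rw [s2, show Nat.beq 0 0 = true from rfl, cond_true, e5] at h
            obtain ⟨tr, l', h3, h4, h5⟩ := ih (hI.add hw hwl) h
            refine ⟨0 :: tr, l', ⟨_, tr, rfl, Or.inr (Or.inr (Or.inr (Or.inr
              ⟨hij, w, hnx, hwl, rfl, h3⟩)))⟩, ⟨by rw [← h2, s2], h4⟩, h5⟩
    · rw [e1, cond_true] at h
      have hij := Nat.eq_of_beq_eq_true e1
      cases e2 : Nat.blt j n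
      · rw [e2, cond_false] at h
        have hjn : ¬ j < l.length := by
          rw [← hn, ← Nat.blt_eq, e2]
          exact Bool.false_ne_true
        cases e3 : Nat.blt 0 (nib F n)
        · rw [e3, cond_false, cond_false] at h
          exact absurd h Bool.false_ne_true
        cases e4 : Nat.blt (nib F n) 12
        · rw [e3, e4, cond_true, cond_false, cond_false] at h
          exact absurd h Bool.false_ne_true
        cases e5 : Nat.beq (nib Q (nib F n)) 0
        · rw [e3, e4, e5, cond_true, cond_true, cond_false, cond_false] at h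
          exact absurd h Bool.false_ne_true
        cases e6 : Nat.beq (nib C (nib F n)) (nib R q)
        · rw [e3, e4, e5, e6, cond_true, cond_true, cond_true, cond_false] at h
          exact absurd h Bool.false_ne_true
        rw [e3, e4, e5, e6, cond_true, cond_true, cond_true, cond_true] at h
        rw [Nat.blt_eq] at e3 e4
        have h5 := Nat.eq_of_beq_eq_true e5
        have h6 := Nat.eq_of_beq_eq_true e6
        obtain ⟨x, hx, hx11⟩ : ∃ x : Fin 13, x.val + 1 = nib F n ∧ x.val < 11 :=
          ⟨⟨nib F n - 1, by omega⟩, by simp only; omega, by simp only; omega⟩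
        rw [← hx] at h h5 h6
        have hxl : x ∉ l := by
          intro hxl
          rw [hI.2.2.2.2.1, if_pos hxl] at h5
          omega
        obtain ⟨tr, l', h3, h4, h7⟩ := ih (hI.add hx11 hxl) h
        refine ⟨col D x :: tr, l', ⟨_, tr, rfl, Or.inr (Or.inl ⟨hij, hjn, x, hx11, hxl, rfl, h3⟩)⟩,
          ⟨by rw [← hC x hx11, h6], h4⟩, h7⟩
      · rw [e2, cond_true] at h
        have hjn : j < l.length := by
          rw [← hn, ← Nat.blt_eq, e2]
        cases e3 : Nat.beq (nib R q) 0
        · rw [e3, cond_false] at h
          exact absurd h Bool.false_ne_true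
        · rw [e3, cond_true] at h
          obtain ⟨tr, l', h3, h4, h5⟩ := ih hI h
          refine ⟨0 :: tr, l', ⟨_, tr, rfl, Or.inl ⟨hij, hjn, rfl, h3⟩⟩,
            ⟨(Nat.eq_of_beq_eq_true e3).symm, h4⟩, h5⟩

end Pool.Agent.Helper57.TY
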