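import Mathlib
import Pool.Agent.Helper57.TY.FrameK

/-!
MP_8ee768_co, project TH-Y': the tables of third points and colours of a family with code `T`.
-/

set_option autoImplicit false

namespace Pool.Agent.Helper57.TY

open Finset
open Pool.Agent.Helper89.CV (OddCover ofMask)
open Pool.Agent.Helper97.CV
open Pool.Agent.Helper79.CV
open Pool.Agent.Helper33.CV (Keeps rkM rkM_mk orL testBit_orL)

/-- rank of the triple `u, v, w` -/
def rk3 (u v w : ℕ) : ℕ := rkM 11 3 (Nat.lor (2 ^ u) (Nat.lor (2 ^ v) (2 ^ w)))

theorem mk_triple (u v w : Fin 13) :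
    Pool.Agent.Helper79.CV.mk {u, v, w} = Nat.lor (2 ^ u.val) (Nat.lor (2 ^ v.val) (2 ^ w.val)) := by
  refine Nat.eq_of_testBit_eq fun b => ?_
  have e : Nat.lor (2 ^ u.val) (Nat.lor (2 ^ v.val) (2 ^ w.val)) =
    2 ^ u.val ||| (2 ^ v.val ||| 2 ^ w.val) := rfl
  rw [e, Nat.testBit_or, Nat.testBit_or, Nat.testBit_two_pow, Nat.testBit_two_pow,
    Nat.testBit_two_pow]
  by_cases hb : b < 13
  · have h1 := testBit_mk {u, v, w} ⟨b, hb⟩
    simp only at h1
    rw [h1, Bool.eq_iff_iff]
    simp only [mem_insert, mem_singleton, decide_eq_true_eq, Bool.or_eq_true, Fin.ext_iff]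
    constructor
    · rintro (h | h | h)
      · exact Or.inl h.symm
      · exact Or.inr (Or.inl h.symm)
      · exact Or.inr (Or.inr h.symm)
    · rintro (h | h | h)
      · exact Or.inl h.symm
      · exact Or.inr (Or.inl h.symm)
      · exact Or.inr (Or.inr h.symm)
  · rw [testBit_mk_ge {u, v, w} (show 13 ≤ b by omega),
      decide_eq_false (show ¬ u.val = b by omega), decide_eq_false (show ¬ v.val = b by omega),
      decide_eq_false (show ¬ w.val = b by omega)]
    rfl

/-- `w` is a possible third point of `u, v` -/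
def Val (u v w : ℕ) : Prop := w < 11 ∧ w ≠ u ∧ w ≠ v

theorem cpl_fam {T : ℕ} {u v : Fin 13} (hu : u.val < 11) (hv : v.val < 11) (huv : u ≠ v)
    (w : Fin 13) : Cpl (fam 11 3 T) u v w ↔
      Val u.val v.val w.val ∧ T.testBit (rk3 u.val v.val w.val) = true := by
  unfold Cpl Val
  rw [mem_fam_iff (by norm_num)]
  have hne : ∀ a b : Fin 13, a ≠ b ↔ a.val ≠ b.val := fun a b => by
    rw [Ne, Ne, Fin.ext_iff]
  constructor
  · rintro ⟨-, h1, h2, h3, h4⟩
    have h5 : w.val < 11 := (mk_lt_iff.1 h3.1) w (by simp)
    refine ⟨⟨h5, (hne _ _).1 h1, (hne _ _).1 h2⟩, ?_⟩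
    unfold rk3
    rw [← mk_triple, rkM_mk (by norm_num) h3]
    exact h4
  · rintro ⟨⟨h1, h2, h3⟩, h4⟩
    have h5 : Sub 11 3 ({u, v, w} : Finset (Fin 13)) := by
      constructor
      · rw [mk_lt_iff]
        intro a ha
        simp only [mem_insert, mem_singleton] at ha
        rcases ha with rfl | rfl | rfl
        · exact hu
        · exact hv
        · exact h1
      · rw [card_insert_of_notMem, card_pair ((hne _ _).2 h3).symm]
        simp only [mem_insert, mem_singleton, not_or]
        exact ⟨huv, ((hne _ _).2 h2).symm⟩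
    refine ⟨huv, (hne _ _).2 h2, (hne _ _).2 h3, h5, ?_⟩
    rw [← rkM_mk (by norm_num) h5, mk_triple]
    exact h4

/-- the possible ranks -/
def rks (u v : ℕ) : List ℕ :=
  ((List.range 11).filter fun w => !Nat.beq w u && !Nat.beq w v).map (rk3 u v)

theorem mem_rks {u v r : ℕ} : r ∈ rks u v ↔ ∃ w, Val u v w ∧ rk3 u v w = r := by
  unfold rks Val
  rw [List.mem_map]
  constructor
  · rintro ⟨w, hw, rfl⟩
    rw [List.mem_filter, List.mem_range, Bool.and_eq_true, Bool.not_eq_true', Bool.not_eq_true'] at hw
    refine ⟨w, ⟨hw.1, ?_, ?_⟩, rfl⟩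
    · rintro rfl
      rw [Nat.beq_refl] at hw
      exact Bool.false_ne_true hw.2.1.symm
    · rintro rfl
      rw [Nat.beq_refl] at hw
      exact Bool.false_ne_true hw.2.2.symm
  · rintro ⟨w, ⟨h1, h2, h3⟩, rfl⟩
    refine ⟨w, ?_, rfl⟩
    rw [List.mem_filter, List.mem_range, Bool.and_eq_true, Bool.not_eq_true', Bool.not_eq_true']
    refine ⟨h1, ?_, ?_⟩
    · rw [← Bool.not_eq_true]
      exact fun h => h2 (Nat.eq_of_beq_eq_true h)
    · rw [← Bool.not_eq_true]
      exact fun h => h3 (Nat.eq_of_beq_eq_true h)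

/-- byte -/
def byte (X i : ℕ) : ℕ := Nat.land (Nat.shiftRight X (Nat.mul 8 i)) 255

/-- the ranks as bytes: byte `w + 1` is the rank of `u, v, w`, the others are 255 -/
def rkB (u v : ℕ) : ℕ :=
  (List.range 16).foldr (fun a X => Nat.lor X (Nat.shiftLeft
    (bif Nat.blt 0 a && Nat.blt a 12 && !Nat.beq a (u + 1) && !Nat.beq a (v + 1) then rk3 u v (a - 1)
      else 255) (8 * a))) 0

/-- entries of the test of the table: place, ranks as bits, ranks as bytes -/
def entF : List (ℕ × ℕ × ℕ) :=
  (List.range 11).flatMap fun u => ((List.range 11).filter fun v => !Nat.beq u v).map fun v =>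
    (16 * (u + 1) + (v + 1), orL (rks u v), rkB u v)

theorem mem_entF {u v : ℕ} (hu : u < 11) (hv : v < 11) (huv : u ≠ v) :
    (16 * (u + 1) + (v + 1), orL (rks u v), rkB u v) ∈ entF := by
  unfold entF
  rw [List.mem_flatMap]
  refine ⟨u, List.mem_range.2 hu, ?_⟩
  rw [List.mem_map]
  refine ⟨v, ?_, rfl⟩
  rw [List.mem_filter, List.mem_range, Bool.not_eq_true', ← Bool.not_eq_true]
  exact ⟨hv, fun h => huv (Nat.eq_of_beq_eq_true h)⟩

/-- bytes determine the point -/
def rkBOK : Bool :=
  (List.range 11).all fun u => (List.range 11).all fun v => Nat.beq u v ||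
    (List.range 16).all fun a => (List.range 11).all fun w => Nat.beq w u || Nat.beq w v ||
      !(Nat.beq (byte (rkB u v) a) (rk3 u v w)) || Nat.beq a (w + 1)

theorem rkB_ok : rkBOK = true := by decide +kernel

theorem byte_rkB {u v a w : ℕ} (hu : u < 11) (hv : v < 11) (huv : u ≠ v) (ha : a < 16)
    (hw : Val u v w) (h : byte (rkB u v) a = rk3 u v w) : a = w + 1 := by
  have h1 := rkB_ok
  unfold rkBOK at h1
  simp only [List.all_eq_true, List.mem_range, Bool.or_eq_true, Bool.not_eq_true'] at h1
  have nb : ∀ {x y : ℕ}, x ≠ y → Nat.beq x y = true → False := fun hxy h =>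
    hxy (Nat.eq_of_beq_eq_true h)
  rcases h1 u hu v hv with h2 | h2
  · exact (nb huv h2).elim
  · rcases h2 a ha w hw.1 with ((h3 | h3) | h3) | h3
    · exact (nb hw.2.1 h3).elim
    · exact (nb hw.2.2 h3).elim
    · rw [h, Nat.beq_refl] at h3
      exact absurd h3.symm Bool.false_ne_true
    · exact Nat.eq_of_beq_eq_true h3

/-- the places which must be empty -/
def zerF : List ℕ :=
  (List.range 12).flatMap fun a => ((List.range 12).filter fun b =>
    Nat.beq a 0 || Nat.beq b 0 || Nat.beq a b).map fun b => 16 * a + b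

/-- test of the table of third points -/
def chkP (E : List (ℕ × ℕ × ℕ)) (Z : List ℕ) (T P : ℕ) : Bool :=
  cond (@List.rec (ℕ × ℕ × ℕ) (fun _ => Bool) true (fun e _ r =>
      cond (@Prod.rec ℕ (ℕ × ℕ) (fun _ => Bool) (fun i m => @Prod.rec ℕ ℕ (fun _ => Bool) (fun M B =>
        frc (nib P i) fun w =>
          cond (Nat.beq w 0)
            (cond (Nat.beq (Nat.land (Nat.land T M) (Nat.pred (Nat.land T M))) 0) false true)
            (Nat.beq (Nat.land T M) (Nat.shiftLeft 1 (byte B w)))) m) e) r false) E)
    (@List.rec ℕ (fun _ => Bool) true (fun i _ r => cond (Nat.beq (nib P i) 0) r false) Z) false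

/-- one entry -/
def entOK (T P : ℕ) (e : ℕ × ℕ × ℕ) : Bool :=
  cond (Nat.beq (nib P e.1) 0)
    (cond (Nat.beq (Nat.land (Nat.land T e.2.1) (Nat.pred (Nat.land T e.2.1))) 0) false true)
    (Nat.beq (Nat.land T e.2.1) (Nat.shiftLeft 1 (byte e.2.2 (nib P e.1))))

theorem recE_eq (E : List (ℕ × ℕ × ℕ)) (T P : ℕ) :
    @List.rec (ℕ × ℕ × ℕ) (fun _ => Bool) true (fun e _ r =>
      cond (@Prod.rec ℕ (ℕ × ℕ) (fun _ => Bool) (fun i m => @Prod.rec ℕ ℕ (fun _ => Bool) (fun M B =>
        frc (nib P i) fun w =>
          cond (Nat.beq w 0)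
            (cond (Nat.beq (Nat.land (Nat.land T M) (Nat.pred (Nat.land T M))) 0) false true)
            (Nat.beq (Nat.land T M) (Nat.shiftLeft 1 (byte B w)))) m) e) r false) E = true →
    ∀ e ∈ E, entOK T P e = true := by
  induction E with
  | nil =>
    intro _ e he
    exact absurd he List.not_mem_nil
  | cons a E ih =>
    obtain ⟨i, M, B⟩ := a
    intro h
    simp only [frc_eq] at h ih
    intro e he
    cases h1 : entOK T P (i, M, B)
    · unfold entOK at h1
      simp only at h1
      rw [h1, cond_false] at h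
      exact absurd h Bool.false_ne_true
    · rcases List.mem_cons.1 he with rfl | he
      · exact h1
      · unfold entOK at h1
        simp only at h1
        rw [h1, cond_true] at h
        exact ih h e he

theorem recZ_eq (Z : List ℕ) (P : ℕ) :
    @List.rec ℕ (fun _ => Bool) true (fun i _ r => cond (Nat.beq (nib P i) 0) r false) Z = true →
    ∀ i ∈ Z, nib P i = 0 := by
  induction Z with
  | nil =>
    intro _ e he
    exact absurd he List.not_mem_nil
  | cons a Z ih =>
    intro h i hi
    simp only at h ih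
    cases h1 : Nat.beq (nib P a) 0
    · rw [h1, cond_false] at h
      exact absurd h Bool.false_ne_true
    · rw [h1, cond_true] at h
      rcases List.mem_cons.1 hi with rfl | hi
      · exact Nat.eq_of_beq_eq_true h1
      · exact ih h i hi

theorem two_pow_land_pred (r : ℕ) : Nat.land (2 ^ r) (Nat.pred (2 ^ r)) = 0 := by
  have e : Nat.land (2 ^ r) (Nat.pred (2 ^ r)) = 2 ^ r &&& (2 ^ r - 1) := rfl
  rw [e, Nat.and_two_pow_sub_one_eq_mod, Nat.mod_self]

theorem byte_lt (X i : ℕ) : byte X i < 256 := by
  have e : byte X i = (X >>> (8 * i)) &&& (2 ^ 8 - 1) := rfl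
  rw [e, Nat.and_two_pow_sub_one_eq_mod]
  exact Nat.mod_lt _ (by norm_num)

theorem specP_of {T P : ℕ} (h : chkP entF zerF T P = true) : SpecP (fam 11 3 T) P := by
  unfold chkP at h
  cases h1 : @List.rec (ℕ × ℕ × ℕ) (fun _ => Bool) true (fun e _ r =>
      cond (@Prod.rec ℕ (ℕ × ℕ) (fun _ => Bool) (fun i m => @Prod.rec ℕ ℕ (fun _ => Bool) (fun M B =>
        frc (nib P i) fun w =>
          cond (Nat.beq w 0)
            (cond (Nat.beq (Nat.land (Nat.land T M) (Nat.pred (Nat.land T M))) 0) false true)
            (Nat.beq (Nat.land T M) (Nat.shiftLeft 1 (byte B w)))) m) e) r false) entF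
  · rw [h1, cond_false] at h
    exact absurd h Bool.false_ne_true
  rw [h1, cond_true] at h
  have hE := recE_eq entF T P h1
  have hZ := recZ_eq zerF P h
  have h3lt : ∀ u v w, third (fam 11 3 T) u v = some w → w.val < 11 := by
    intro u v w hw
    have h2 := (third_eq_some.1 hw).1.2.2.2
    rw [mem_fam_iff (by norm_num)] at h2
    exact (mk_lt_iff.1 h2.1.1) w (by simp)
  refine ⟨?_, h3lt⟩
  have hz : ∀ a b : ℕ, a < 12 → b < 12 → (a = 0 ∨ b = 0 ∨ a = b) → nib P (16 * a + b) = 0 := by
    intro a b ha hb hab
    refine hZ _ ?_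
    unfold zerF
    rw [List.mem_flatMap]
    refine ⟨a, List.mem_range.2 ha, ?_⟩
    rw [List.mem_map]
    refine ⟨b, ?_, rfl⟩
    rw [List.mem_filter, List.mem_range]
    refine ⟨hb, ?_⟩
    rcases hab with rfl | rfl | rfl
    · rfl
    · rw [Nat.beq_refl, Bool.or_true, Bool.true_or]
    · rw [Nat.beq_refl, Bool.or_true]
  intro o₁ o₂ ho₁ ho₂
  rcases o₁ with _ | u
  · have e : (none : Option (Fin 13)).bind (fun u => o₂.bind fun v => third (fam 11 3 T) u v) = none := rfl
    rw [e]
    refine hz 0 (pc o₂) (by norm_num) ?_ (Or.inl rfl)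
    rcases o₂ with _ | v
    · exact by norm_num [pc]
    · have := ho₂ v rfl
      exact (by omega : v.val + 1 < 12)
  · have hu := ho₁ u rfl
    rcases o₂ with _ | v
    · exact hz (u.val + 1) 0 (by omega) (by norm_num) (Or.inr (Or.inl rfl))
    · have hv := ho₂ v rfl
      have e : (some u).bind (fun u => (some v).bind fun v => third (fam 11 3 T) u v) =
        third (fam 11 3 T) u v := rfl
      rw [e]
      have e2 : (16 * pc (some u) + pc (some v)) = 16 * (u.val + 1) + (v.val + 1) := rfl
      rw [e2]
      by_cases huv : u = v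
      · subst huv
        rw [hz _ _ (by omega) (by omega) (Or.inr (Or.inr rfl))]
        rcases h2 : third (fam 11 3 T) u u with _ | w
        · rfl
        · exact absurd rfl (third_eq_some.1 h2).1.1
      · have huv' : u.val ≠ v.val := fun h2 => huv (Fin.ext h2)
        have h2 := hE _ (mem_entF hu hv huv')
        unfold entOK at h2
        simp only at h2
        -- the bits of x
        have hx : ∀ r, (Nat.land T (orL (rks u.val v.val))).testBit r = true ↔
            T.testBit r = true ∧ ∃ w, Val u.val v.val w ∧ rk3 u.val v.val w = r := by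
          intro r
          have e3 : Nat.land T (orL (rks u.val v.val)) = T &&& orL (rks u.val v.val) := rfl
          rw [e3, Nat.testBit_and, Bool.and_eq_true, testBit_orL, mem_rks]
        have hinj : ∀ w₁ w₂, Val u.val v.val w₁ → Val u.val v.val w₂ →
            rk3 u.val v.val w₁ = rk3 u.val v.val w₂ →
            ∀ a, a < 16 → byte (rkB u.val v.val) a = rk3 u.val v.val w₁ → w₁ = w₂ := by
          intro w₁ w₂ hw₁ hw₂ h3 a ha h4
          have h5 := byte_rkB hu hv huv' ha hw₁ h4
          have h6 := byte_rkB hu hv huv' ha hw₂ (h4.trans h3)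
          omega
        cases h3 : Nat.beq (nib P (16 * (u.val + 1) + (v.val + 1))) 0
        · rw [h3, cond_false] at h2
          have h4 := Nat.eq_of_beq_eq_true h2
          generalize hw' : nib P (16 * (u.val + 1) + (v.val + 1)) = w' at h2 h3 h4 ⊢
          have hw16 : w' < 16 := hw' ▸ nib_lt _ _
          have e4 : Nat.shiftLeft 1 (byte (rkB u.val v.val) w') =
              2 ^ byte (rkB u.val v.val) w' := by
            have e5 : Nat.shiftLeft 1 (byte (rkB u.val v.val) w') =
              1 <<< byte (rkB u.val v.val) w' := rfl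
            rw [e5, Nat.one_shiftLeft]
          rw [e4] at h4
          have h5 : (Nat.land T (orL (rks u.val v.val))).testBit (byte (rkB u.val v.val) w') = true := by
            rw [h4, Nat.testBit_two_pow_self]
          rw [hx] at h5
          obtain ⟨h6, w, hw, h7⟩ := h5
          have h8 := byte_rkB hu hv huv' hw16 hw h7.symm
          have h9 : third (fam 11 3 T) u v = some ⟨w, by have := hw.1; omega⟩ := by
            rw [third_eq_some, cpl_fam hu hv huv]
            refine ⟨⟨hw, by rw [h7]; exact h6⟩, ?_⟩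
            intro w₁ hw₁
            rw [cpl_fam hu hv huv] at hw₁
            have h10 : (Nat.land T (orL (rks u.val v.val))).testBit
                (rk3 u.val v.val w₁.val) = true := (hx _).2 ⟨hw₁.2, w₁.val, hw₁.1, rfl⟩
            rw [h4, Nat.testBit_two_pow, decide_eq_true_eq] at h10
            exact Fin.ext (hinj w₁.val w hw₁.1 hw (h10.symm.trans h7.symm) w' hw16 h10)
          rw [h9]
          exact h8
        · rw [h3, cond_true] at h2
          rw [Nat.eq_of_beq_eq_true h3]
          rcases h4 : third (fam 11 3 T) u v with _ | w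
          · rfl
          · exfalso
            rw [third_eq_some] at h4
            obtain ⟨h5, h6⟩ := h4
            rw [cpl_fam hu hv huv] at h5
            have h7 : Nat.land T (orL (rks u.val v.val)) = 2 ^ rk3 u.val v.val w.val := by
              refine Nat.eq_of_testBit_eq fun r => ?_
              rw [Bool.eq_iff_iff, hx, Nat.testBit_two_pow, decide_eq_true_eq]
              constructor
              · rintro ⟨h8, w₁, hw₁, rfl⟩
                have h9 := h6 ⟨w₁, by have := hw₁.1; omega⟩
                  ((cpl_fam hu hv huv _).2 ⟨hw₁, h8⟩)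
                rw [← h9]
              · rintro rfl
                exact ⟨h5.2, w.val, h5.1, rfl⟩
            rw [h7, two_pow_land_pred] at h2
            exact Bool.false_ne_true h2

/-- number of the digits of a row which are zero -/
def rowZ (P a : ℕ) : ℕ :=
  @List.rec ℕ (fun _ => ℕ → ℕ) (fun z => z)
    (fun b _ ih z => cond (Nat.beq (nib P (Nat.add (Nat.mul 16 a) b)) 0)
      (frc (Nat.succ z) fun z' => ih z') (ih z)) pts 0

/-- test of the table of colours -/
def chkC (P C : ℕ) : Bool :=
  allR pts fun a => Nat.beq (Nat.add (nib C a) (rowZ P a)) 15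

theorem rowZ_eq (P a : ℕ) : rowZ P a = (pts.filter fun b => Nat.beq (nib P (16 * a + b)) 0).length := by
  have key : ∀ (l : List ℕ) (z : ℕ), @List.rec ℕ (fun _ => ℕ → ℕ) (fun z => z)
      (fun b _ ih z => cond (Nat.beq (nib P (Nat.add (Nat.mul 16 a) b)) 0)
      (frc (Nat.succ z) fun z' => ih z') (ih z)) l z =
        z + (l.filter fun b => Nat.beq (nib P (16 * a + b)) 0).length := by
    intro l
    induction l with
    | nil =>
      intro z
      rfl
    | cons b l ih =>
      intro z
      simp only [frc_eq] at ih ⊢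
      have e : Nat.add (Nat.mul 16 a) b = 16 * a + b := rfl
      rw [e]
      cases h : Nat.beq (nib P (16 * a + b)) 0
      · rw [cond_false, ih, List.filter_cons_of_neg (by rw [h]; exact Bool.false_ne_true)]
      · rw [cond_true, ih, List.filter_cons_of_pos (by rw [h]), List.length_cons]
        omega
  unfold rowZ
  rw [key, Nat.zero_add]

theorem specC_of {T P C : ℕ} (hP : SpecP (fam 11 3 T) P) (h : chkC P C = true) :
    SpecC (fam 11 3 T) C := by
  unfold chkC at h
  rw [allR_eq] at h
  intro x hx
  have h1 := Nat.eq_of_beq_eq_true (h (x.val + 1) (mem_pts.2 ⟨by omega, by omega⟩))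
  rw [rowZ_eq] at h1
  have h1' : nib C (x.val + 1) +
    (pts.filter fun b => Nat.beq (nib P (16 * (x.val + 1) + b)) 0).length = 15 := h1
  have h2 : (lone (fam 11 3 T) x).card =
      (pts.filter fun b => Nat.beq (nib P (16 * (x.val + 1) + b)) 0).length := by
    have h3 : ((lone (fam 11 3 T) x).image fun u => u.val + 1) =
        (pts.filter fun b => Nat.beq (nib P (16 * (x.val + 1) + b)) 0).toFinset := by
      ext b
      rw [mem_image, List.mem_toFinset, List.mem_filter, mem_pts]
      have hs : ∀ u : Fin 13, u.val < 11 →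
          (nib P (16 * (x.val + 1) + (u.val + 1)) = 0 ↔ third (fam 11 3 T) x u = none) := by
        intro u hu
        have h4 := hP.1 (some x) (some u) (by rintro y hy; rw [Option.some.injEq] at hy; rw [← hy]; exact hx)
          (by rintro y hy; rw [Option.some.injEq] at hy; rw [← hy]; exact hu)
        have h5 : nib P (16 * (x.val + 1) + (u.val + 1)) = pc (third (fam 11 3 T) x u) := h4
        rw [h5]
        constructor
        · intro h6
          exact pc_injective h6
        · intro h6
          rw [h6]
          rfl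
      constructor
      · rintro ⟨u, hu, rfl⟩
        unfold lone at hu
        rw [mem_filter] at hu
        refine ⟨⟨by omega, by have := hu.2.1; omega⟩, ?_⟩
        rw [(hs u hu.2.1).2 hu.2.2]
        rfl
      · rintro ⟨⟨hb1, hb2⟩, hb3⟩
        have h6 := Nat.eq_of_beq_eq_true hb3
        refine ⟨⟨b - 1, by omega⟩, ?_, by simp only; omega⟩
        unfold lone
        rw [mem_filter]
        refine ⟨mem_univ _, by simp only; omega, ?_⟩
        rw [← hs _ (by simp only; omega)]
        simp only
        rw [Nat.sub_add_cancel hb1]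
        exact h6
    rw [← List.toFinset_card_of_nodup (List.Nodup.filter _ (by decide)), ← h3,
      card_image_of_injective]
    intro a b hab
    simp only at hab
    exact Fin.ext (by omega)
  unfold col
  omega

end Pool.Agent.Helper57.TY
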