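import Mathlib
import Pool.Agent.Helper57.TY.FrameP

/-!
MP_8ee768_co, project TH-Y': the test of one pair link type and the theorem on isomorphisms.

The record of a type: `T` = code of the family, `P` = table of third points, `C` = table of
colours, `R` = smallest trace, `F` = final list of the reference run, `A` = list of pairs (code of
an automorphism, final list of the run which it gives).
-/

set_option autoImplicit false

namespace Pool.Agent.Helper57.TY

open Finset
open Pool.Agent.Helper89.CV (OddCover ofMask)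
open Pool.Agent.Helper97.CV
open Pool.Agent.Helper79.CV
open Pool.Agent.Helper33.CV (Keeps)

/-- the schedule: pairs and places (the digits `0, .., 3` of the traces are free) -/
def sched : List (ℕ × ℕ × ℕ) :=
  ((List.range 11).flatMap fun j => (j, j) :: (List.range j).map fun i => (i, j)).zipIdx.map
    fun e => (e.1.1, e.1.2, e.2 + 4)

theorem plc_sched : plc sched = (List.range 66).map fun q => q + 4 := by decide +kernel

/-- code of a permutation: digit `i` is the value at `i`, for the points `0, .., 10` -/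
def cd (σ : Equiv.Perm (Fin 13)) : ℕ :=
  (List.range 11).foldr (fun i X => upd X (if h : i < 13 then (σ ⟨i, h⟩).val else 0) i) 0

/-- the list `F` carried by the permutation with code `g` -/
def comp (F g : ℕ) : ℕ :=
  @List.rec ℕ (fun _ => ℕ) 0 (fun k _ r =>
    upd r (Nat.land (Nat.succ (nib g (Nat.pred (nib F k)))) 15) k) (List.range 11)

/-- the test of a record, `s` is the schedule, `E` and `Z` are the lists for `chkP` -/
def okT (s : List (ℕ × ℕ × ℕ)) (E : List (ℕ × ℕ × ℕ)) (Z : List ℕ) (T P C R F : ℕ)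
    (A : List (ℕ × ℕ)) : Bool :=
  cond (chkP E Z T P) (cond (chkC P C) (cond (ref P C F R s 0 15 0) (cond (chk P C A R s 0 15 0)
    (cond (Nat.blt 0 (nib F 10))
      (@List.rec (ℕ × ℕ) (fun _ => Bool) true (fun p _ r =>
        cond (cond (Nat.blt p.1 17592186044416) (Nat.beq (comp F p.1) p.2) false) r false) A)
      false) false) false) false) false

theorem nib_zero (i : ℕ) : nib 0 i = 0 := by
  refine Nat.eq_of_testBit_eq fun b => ?_
  rw [testBit_nib, Nat.zero_testBit, Nat.zero_testBit, Bool.and_false]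

/-- digits of a number built by changes -/
theorem nib_foldr (f : ℕ → ℕ) (hf : ∀ k, f k < 16) {l : List ℕ} (hl : l.Nodup) (i : ℕ) :
    nib (l.foldr (fun k X => upd X (f k) k) 0) i = if i ∈ l then f i else 0 := by
  induction l with
  | nil =>
    rw [List.foldr_nil, nib_zero, if_neg (List.not_mem_nil)]
  | cons k l ih =>
    rw [List.nodup_cons] at hl
    rw [List.foldr_cons, nib_upd (hf k)]
    split_ifs with h1 h2 h2
    · have h3 := ih hl.2
      rw [h1, if_neg hl.1] at h3
      rw [h1, h3, Nat.zero_xor]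
    · exact absurd (by rw [h1]; exact List.mem_cons_self) h2
    · rw [ih hl.2, if_pos]
      rcases List.mem_cons.1 h2 with h3 | h3
      · exact absurd h3 h1
      · exact h3
    · rw [ih hl.2, if_neg]
      exact fun h3 => h2 (List.mem_cons_of_mem _ h3)

theorem nib_ext {a b : ℕ} (h : ∀ i, nib a i = nib b i) : a = b := by
  refine Nat.eq_of_testBit_eq fun k => ?_
  have h1 : (nib a (k / 4)).testBit (k % 4) = (nib b (k / 4)).testBit (k % 4) := by rw [h]
  rw [testBit_nib, testBit_nib, decide_eq_true (Nat.mod_lt k (by norm_num)), Bool.true_and,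
    Bool.true_and, Nat.div_add_mod] at h1
  exact h1

theorem nib_cd (σ : Equiv.Perm (Fin 13)) (i : ℕ) :
    nib (cd σ) i = if h : i < 11 then (σ ⟨i, by omega⟩).val else 0 := by
  unfold cd
  rw [nib_foldr (fun i => if h : i < 13 then (σ ⟨i, h⟩).val else 0) ?_ List.nodup_range]
  · by_cases h1 : i < 11
    · rw [if_pos (List.mem_range.2 h1), dif_pos h1, dif_pos (by omega : i < 13)]
    · rw [if_neg (fun h2 => h1 (List.mem_range.1 h2)), dif_neg h1]
  · intro k
    split_ifs with h
    · have := (σ ⟨k, h⟩).isLt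
      omega
    · norm_num

theorem nib_of_lt {g i : ℕ} (hg : g < 17592186044416) (hi : 11 ≤ i) : nib g i = 0 := by
  refine Nat.eq_of_testBit_eq fun b => ?_
  rw [testBit_nib, Nat.zero_testBit]
  have e : (17592186044416 : ℕ) = 2 ^ 44 := by norm_num
  rw [Nat.testBit_eq_false_of_lt (lt_of_lt_of_le (e ▸ hg)
    (Nat.pow_le_pow_right (by norm_num) (by omega))), Bool.and_false]

theorem comp_eq (F g : ℕ) : comp F g =
    (List.range 11).foldr (fun k X => upd X (Nat.land (Nat.succ (nib g (Nat.pred (nib F k)))) 15) k) 0 := by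
  unfold comp
  generalize List.range 11 = l
  induction l with
  | nil => rfl
  | cons a l ih =>
    rw [List.foldr_cons, ← ih]

theorem nib_comp (F g i : ℕ) (hi : i < 11) :
    nib (comp F g) i = (nib g (nib F i - 1) + 1) % 16 := by
  rw [comp_eq, nib_foldr (fun k => Nat.land (Nat.succ (nib g (Nat.pred (nib F k)))) 15) ?_
    List.nodup_range, if_pos (List.mem_range.2 hi)]
  · rw [land15]
    rfl
  · intro k
    rw [land15]
    exact Nat.mod_lt _ (by norm_num)

theorem keeps_of_fix {σ : Equiv.Perm (Fin 13)} (h11 : σ 11 = 11) (h12 : σ 12 = 12) :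
    Keeps 11 σ := by
  intro a ha
  by_contra h
  have h1 : (σ a).val = 11 ∨ (σ a).val = 12 := by
    have := (σ a).isLt
    omega
  rcases h1 with h1 | h1
  · have h2 : σ a = σ 11 := by rw [h11]; exact Fin.ext h1
    have h3 := σ.injective h2
    rw [h3] at ha
    exact absurd ha (by decide)
  · have h2 : σ a = σ 12 := by rw [h12]; exact Fin.ext h1
    have h3 := σ.injective h2
    rw [h3] at ha
    exact absurd ha (by decide)

/-- what the test says -/
structure Good (s : List (ℕ × ℕ × ℕ)) (T R : ℕ) (A : List (ℕ × ℕ)) : Prop where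
  /-- the reference run -/
  run : ∃ (F : ℕ) (tr : List ℕ) (l' : List (Fin 13)), Run (fam 11 3 T) (prs s) [] tr l' ∧
    Is R tr (plc s) ∧
    (∀ i, nib F i = pc (l'[i]?)) ∧ l'.Nodup ∧ (∀ x ∈ l', x.val < 11) ∧ 0 < nib F 10 ∧
    ∀ p ∈ A, p.1 < 17592186044416 ∧ comp F p.1 = p.2
  /-- the other runs -/
  min : ∀ (tr : List ℕ) (l' : List (Fin 13)), Run (fam 11 3 T) (prs s) [] tr l' →
    Ge R tr (plc s) ∧ (Is R tr (plc s) → ∃ p ∈ A, ∀ i, nib p.2 i = pc (l'[i]?))

theorem good_of_okT {s : List (ℕ × ℕ × ℕ)} {T P C R F : ℕ} {A : List (ℕ × ℕ)}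
    (h : okT s entF zerF T P C R F A = true) : Good s T R A := by
  unfold okT at h
  cases h1 : chkP entF zerF T P
  · rw [h1, cond_false] at h
    exact absurd h Bool.false_ne_true
  cases h2 : chkC P C
  · rw [h1, h2, cond_true, cond_false] at h
    exact absurd h Bool.false_ne_true
  cases h3 : ref P C F R s 0 15 0
  · rw [h1, h2, h3, cond_true, cond_true, cond_false] at h
    exact absurd h Bool.false_ne_true
  cases h4 : chk P C A R s 0 15 0
  · rw [h1, h2, h3, h4, cond_true, cond_true, cond_true, cond_false] at h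
    exact absurd h Bool.false_ne_true
  cases h5 : Nat.blt 0 (nib F 10)
  · rw [h1, h2, h3, h4, h5, cond_true, cond_true, cond_true, cond_true, cond_false] at h
    exact absurd h Bool.false_ne_true
  rw [h1, h2, h3, h4, h5, cond_true, cond_true, cond_true, cond_true, cond_true] at h
  have hP := specP_of h1
  have hC := specC_of hP h2
  obtain ⟨tr, l', h6, h7, h8, h9, h10⟩ := ref_sound hP hC Inv.init h3
  refine ⟨⟨F, tr, l', h6, h7, h8, h9, h10, by rw [Nat.blt_eq] at h5; exact h5, ?_⟩, ?_⟩
  · clear h1 h2 h3 h4 h5 h6 h7 h8 h9 h10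
    induction A with
    | nil =>
      intro p hp
      exact absurd hp List.not_mem_nil
    | cons a A ih =>
      intro p hp
      simp only at h ih
      cases h1 : Nat.blt a.1 17592186044416
      · rw [h1, cond_false, cond_false] at h
        exact absurd h Bool.false_ne_true
      cases h2 : Nat.beq (comp F a.1) a.2
      · rw [h1, h2, cond_true, cond_false] at h
        exact absurd h Bool.false_ne_true
      rw [h1, h2, cond_true, cond_true] at h
      rcases List.mem_cons.1 hp with rfl | hp
      · rw [Nat.blt_eq] at h1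
        exact ⟨h1, Nat.eq_of_beq_eq_true h2⟩
      · exact ih h p hp
  · intro tr₂ l₂ h11
    exact chk_sound hP hC Inv.init h4 h11

/-- isomorphic types have the same smallest trace -/
theorem trace_eq {s : List (ℕ × ℕ × ℕ)} {Ta Ra Tb Rb : ℕ} {Aa Ab : List (ℕ × ℕ)}
    (ha : Good s Ta Ra Aa) (hb : Good s Tb Rb Ab) {σ : Equiv.Perm (Fin 13)} (h11 : σ 11 = 11)
    (h12 : σ 12 = 12) (h : mapF σ (fam 11 3 Ta) = fam 11 3 Tb) :
    ∀ q ∈ plc s, nib Ra q = nib Rb q := by
  have hσ := keeps_of_fix h11 h12
  obtain ⟨Fa, ta, la, ha1, ha2, -⟩ := ha.run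
  obtain ⟨Fb, tb, lb, hb1, hb2, -⟩ := hb.run
  have h1 := ha1.map hσ
  rw [h, List.map_nil] at h1
  have h2 := hb1.map hσ.symm
  have h3 : mapF σ.symm (fam 11 3 Tb) = fam 11 3 Ta := by
    rw [← h]
    ext q
    rw [mem_mapF', mem_mapF', Equiv.symm_symm, mapS_symm_mapS]
  rw [h3, List.map_nil] at h2
  have h4 := is_of_ge ha2 hb2 (hb.min _ _ h1).1 (ha.min _ _ h2).1
  rw [← h4] at hb2
  exact is_unique ha2 hb2

/-- the automorphisms are in the list -/
theorem aut_mem {s : List (ℕ × ℕ × ℕ)} {T R : ℕ} {A : List (ℕ × ℕ)}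
    (ha : Good s T R A) {σ : Equiv.Perm (Fin 13)} (h11 : σ 11 = 11)
    (h12 : σ 12 = 12) (h : mapF σ (fam 11 3 T) = fam 11 3 T) : cd σ ∈ A.map Prod.fst := by
  have hσ := keeps_of_fix h11 h12
  obtain ⟨F, tr, l, h1, h2, h3, h4, h5, h6, h7⟩ := ha.run
  have h8 := h1.map hσ
  rw [h, List.map_nil] at h8
  obtain ⟨p, hp, h9⟩ := (ha.min _ _ h8).2 h2
  obtain ⟨h10, h13⟩ := h7 p hp
  rw [List.mem_map]
  refine ⟨p, hp, nib_ext fun x => ?_⟩
  rw [nib_cd]
  split_ifs with hx
  · -- the point x is labelled
    have hlen : 11 ≤ l.length := by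
      by_contra hlt
      rw [h3, List.getElem?_eq_none (by omega)] at h6
      exact absurd h6 (by norm_num [pc])
    have hmem : (⟨x, by omega⟩ : Fin 13) ∈ l := by
      have hsub : l.map Fin.val ⊆ List.range 11 := by
        intro a ha
        rw [List.mem_map] at ha
        obtain ⟨y, hy, rfl⟩ := ha
        rw [List.mem_range]
        exact h5 y hy
      have hperm := (List.subperm_of_subset (h4.map Fin.val_injective) hsub).perm_of_length_le (by
        rw [List.length_map, List.length_range]
        exact hlen)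
      have h14 : x ∈ l.map Fin.val := hperm.mem_iff.2 (List.mem_range.2 hx)
      rw [List.mem_map] at h14
      obtain ⟨y, hy, hy2⟩ := h14
      have h15 : y = ⟨x, by omega⟩ := Fin.ext hy2
      rw [← h15]
      exact hy
    obtain ⟨k, hk, hk2⟩ := List.mem_iff_getElem.1 hmem
    have hk11 : k < 11 := lt_of_lt_of_le hk (length_le h4 h5)
    have h16 := h9 k
    rw [← h13, nib_comp F p.1 k hk11, List.getElem?_map, List.getElem?_eq_getElem hk, hk2, h3,
      List.getElem?_eq_getElem hk, hk2] at h16
    have e1 : pc (some (⟨x, by omega⟩ : Fin 13)) = x + 1 := rfl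
    have e2 : pc (Option.map σ (some (⟨x, by omega⟩ : Fin 13))) = (σ ⟨x, by omega⟩).val + 1 := rfl
    rw [e1, e2, Nat.add_sub_cancel] at h16
    have h17 := nib_lt p.1 x
    have h18 := (σ ⟨x, by omega⟩).isLt
    omega
  · exact nib_of_lt h10 (by omega)

end Pool.Agent.Helper57.TY
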